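import Pool.Agent.H14.Bq1

namespace Pool.Agent.Results.MP_b384de_nt.Div

open Polynomial Finset Pool.Agent.H14.Bq

/-- The height of an integer polynomial: the largest absolute value of a coefficient. -/
def height (f : ℤ[X]) : ℕ := f.support.sup fun i => (f.coeff i).natAbs

theorem le_height (f : ℤ[X]) (k : ℕ) : (f.coeff k).natAbs ≤ height f := by
  by_cases h : k ∈ f.support
  · exact le_sup (f := fun i => (f.coeff i).natAbs) h
  · rw [notMem_support_iff.mp h]; simp

theorem height_le {f : ℤ[X]} {c : ℕ} (h : ∀ k, (f.coeff k).natAbs ≤ c) : height f ≤ c :=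
  Finset.sup_le fun k _ => h k

theorem height_neg (f : ℤ[X]) : height (-f) = height f := by
  simp [height]

theorem dvd_prod (s : Finset ℕ) (g : ℕ → ℤ[X]) (hg : ∀ i ∈ s, Irreducible (g i)) :
    ∀ f, f ∣ ∏ i ∈ s, g i → ∃ t ⊆ s, f = ∏ i ∈ t, g i ∨ f = -∏ i ∈ t, g i := by
  have hu : ∀ u : ℤ[X], IsUnit u → u = 1 ∨ u = -1 := by
    intro u hu
    obtain ⟨r, hr, rfl⟩ := Polynomial.isUnit_iff.mp hu
    rcases Int.isUnit_iff.mp hr with h | h <;> simp [h]
  induction s using Finset.induction_on with
  | empty =>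
    intro f hf
    exact ⟨∅, Subset.rfl, by simpa using hu f (isUnit_of_dvd_one hf)⟩
  | insert a s ha ih =>
    intro f hf
    rw [prod_insert ha] at hf
    obtain ⟨f1, f2, h1, h2, rfl⟩ := exists_dvd_and_dvd_of_dvd_mul hf
    obtain ⟨t, ht, h⟩ := ih (fun i hi => hg i (mem_insert_of_mem hi)) f2 h2
    obtain ⟨c, hc⟩ := h1
    rcases (hg a (mem_insert_self _ _)).isUnit_or_isUnit hc with h3 | h3
    · refine ⟨t, ht.trans (subset_insert _ _), ?_⟩
      rcases hu _ h3 with rfl | rfl <;> rcases h with rfl | rfl <;> simp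
    · refine ⟨insert a t, insert_subset_insert _ ht, ?_⟩
      rw [prod_insert (fun h => ha (ht h)), hc]
      rcases hu _ h3 with rfl | rfl <;> rcases h with rfl | rfl <;> simp

section
variable {p q : ℕ} (hp : p.Prime) (hq : q.Prime) (hpq : p < q)
include hp hq hpq

theorem cases16 (a b c d : Prop) [Decidable a] [Decidable b] [Decidable c] [Decidable d] :
    WB q ((if a then cyclotomic 1 ℤ else 1) * ((if b then cyclotomic p ℤ else 1) *
      ((if c then cyclotomic q ℤ else 1) * (if d then cyclotomic (p * q) ℤ else 1))))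
      (fun _ => p) := by
  have := Fact.mk hp
  have := Fact.mk hq
  have hp2 := hp.two_le
  obtain ⟨wR, wLR⟩ := RW hp hq hpq
  have w1 : WB q 1 (fun _ => 1) := (WB.one hq.pos).mono fun r => by split_ifs <;> omega
  have wL : WB q (X - 1) (fun _ => 1) := by
    rw [← pow_one X]
    refine ((WB.mon hq.pos 1).sub (WB.one hq.pos)).mono fun r => ?_
    split_ifs with h1 h2
    · rw [h2] at h1; simp at h1
    all_goals omega
  have hP : cyclotomic p ℤ = ∑ i ∈ range p, X ^ i := cyclotomic_prime ℤ p
  have hQ : cyclotomic q ℤ = ∑ i ∈ range q, X ^ i := cyclotomic_prime ℤ q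
  have hLP := cyclotomic_prime_mul_X_sub_one ℤ p
  have hLQ := cyclotomic_prime_mul_X_sub_one ℤ q
  have hRP := RP hp hq hpq
  have hRQ := RQ hp hq hpq
  have wQ : WB q (cyclotomic q ℤ) (fun _ => 1) := by
    rw [hQ]
    exact (WB.idx hq.pos (range q) (fun i => i) ZMod.val
      (fun i hi => ZMod.val_cast_of_lt (mem_range.mp hi))).mono fun r => by split_ifs <;> omega
  have hp0 : (p : ZMod q) ≠ 0 := fun h => ndvd hp hq hpq ((ZMod.natCast_eq_zero_iff p q).mp h)
  have wRQ : WB q (cyclotomic (p * q) ℤ * cyclotomic q ℤ) (fun _ => 1) := by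
    rw [hRQ]
    refine (WB.idx hq.pos (range q) (fun i => i * p) (fun r => (r * (p : ZMod q)⁻¹).val)
      (fun i hi => ?_)).mono fun r => by split_ifs <;> omega
    rw [Nat.cast_mul, mul_assoc, mul_inv_cancel₀ hp0, mul_one,
      ZMod.val_cast_of_lt (mem_range.mp hi)]
  have mP : ∀ A, WB q A (fun _ => 1) → WB q (cyclotomic p ℤ * A) (fun _ => p) := fun A h => by
    rw [hP]; exact (h.mul_sum (range p) (fun i => i)).mono fun r => by simp
  have mRP : ∀ A, WB q A (fun _ => 1) →
      WB q ((cyclotomic (p * q) ℤ * cyclotomic p ℤ) * A) (fun _ => p) := fun A h => by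
    rw [hRP]; exact (h.mul_sum (range p) (fun i => i * q)).mono fun r => by simp
  have mL : ∀ e A, WB q A (fun _ => 1) → WB q ((X ^ e - 1) * A) (fun _ => p) := fun e A h =>
    (h.mulL e).mono fun r => by omega
  have up : ∀ A, WB q A (fun _ => 1) → WB q A (fun _ => p) := fun A h => h.mono fun r => by omega
  rw [cyclotomic_one]
  split_ifs
  · convert mL p _ wRQ using 1; rw [← hLP]; ring
  · convert mL p _ wQ using 1; rw [← hLP]; ring
  · convert mRP _ wL using 1; ring
  · convert mL p _ w1 using 1; rw [← hLP]; ring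
  · convert mL 1 _ wRQ using 1; ring
  · convert mL q _ w1 using 1; rw [← hLQ]; ring
  · convert wLR using 1; ring
  · convert up _ wL using 1; ring
  · convert mP _ wRQ using 1; ring
  · convert mP _ wQ using 1; ring
  · convert mRP _ w1 using 1; ring
  · convert mP _ w1 using 1; ring
  · convert up _ wRQ using 1; ring
  · convert up _ wQ using 1; ring
  · convert wR using 1; ring
  · convert up _ w1 using 1; ring

theorem small (t : Finset ℕ) (ht : ∀ d ∈ t, d ∣ p * q) :
    WB q (∏ d ∈ t, cyclotomic d ℤ) (fun _ => p) := by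
  have hp2 := hp.two_le
  have h1 : p < p * q := by nlinarith
  have h2 : q < p * q := by nlinarith
  have hsub : t ⊆ {1, p, q, p * q} := by
    intro d hd
    obtain ⟨a, b, ha, hb, rfl⟩ := exists_dvd_and_dvd_of_dvd_mul (ht d hd)
    rcases (Nat.dvd_prime hp).mp ha with rfl | rfl <;>
      rcases (Nat.dvd_prime hq).mp hb with rfl | rfl <;> simp
  rw [← inter_eq_right.mpr hsub, ← prod_ite_mem, prod_insert (by simp; omega),
    prod_insert (by simp; omega), prod_insert (by simp; omega), prod_singleton]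
  exact cases16 hp hq hpq _ _ _ _

theorem lower (F : ℤ[X]) (k : ℕ) :
    (cyclotomic p ℤ * cyclotomic q ℤ * expand ℤ q F).coeff (q * k + (q - 1)) = p * F.coeff k := by
  have := Fact.mk hp
  have := Fact.mk hq
  have hq0 := hq.pos
  have h1 : ∀ j < q, (cyclotomic q ℤ * expand ℤ q F).coeff (q * k + j) = F.coeff k := by
    intro j hj
    rw [cyclotomic_prime, sum_mul, finset_sum_coeff, sum_eq_single_of_mem j (mem_range.mpr hj)]
    · rw [coeff_X_pow_mul, coeff_expand hq0, if_pos (dvd_mul_right _ _),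
        Nat.mul_div_cancel_left _ hq0]
    · intro i hi hij
      rw [coeff_X_pow_mul']
      split_ifs with h
      · rw [coeff_expand hq0, if_neg]
        intro hd
        have hi' := mem_range.mp hi
        have : ((q * k + j - i : ℕ) : ZMod q) = 0 := (ZMod.natCast_eq_zero_iff _ _).mpr hd
        rw [Nat.cast_sub h] at this
        simp only [Nat.cast_add, Nat.cast_mul, ZMod.natCast_self, zero_mul, zero_add,
          sub_eq_zero] at this
        have h2 := congrArg ZMod.val this
        rw [ZMod.val_cast_of_lt hj, ZMod.val_cast_of_lt hi'] at h2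
        exact hij h2.symm
      · rfl
  rw [mul_assoc, cyclotomic_prime ℤ p, sum_mul, finset_sum_coeff,
    sum_congr rfl (g := fun _ => F.coeff k)]
  · simp
  · intro i hi
    have hi' := mem_range.mp hi
    rw [coeff_X_pow_mul', if_pos (by omega), show q * k + (q - 1) - i = q * k + (q - 1 - i) by omega,
      h1 _ (by omega)]

omit hpq in
theorem big (b d : ℕ) (hd : d ∣ p * q ^ b) (hn : ¬ d ∣ p * q) :
    cyclotomic d ℤ = expand ℤ q (cyclotomic (d / q) ℤ) := by
  obtain ⟨a, c, ha, hc, rfl⟩ := exists_dvd_and_dvd_of_dvd_mul hd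
  obtain ⟨i, -, rfl⟩ := (Nat.dvd_prime_pow hq).mp hc
  match i, hn with
  | 0, hn => exact absurd (by simpa using ha.mul_right q) hn
  | 1, hn => exact absurd (by simpa using Nat.mul_dvd_mul_right ha q) hn
  | i + 2, _ =>
    have e : a * q ^ (i + 2) = (a * q ^ (i + 1)) * q := by ring
    rw [e, Nat.mul_div_cancel _ hq.pos, cyclotomic_expand_eq_cyclotomic hq
      (Dvd.dvd.mul_left (dvd_pow_self q (by omega)) a)]

end

/-- For primes `p < q` and `b ≥ 1`, the largest height of a divisor of `X ^ (p q ^ b) - 1` in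
`ℤ[X]` exists and is divisible by `p`. -/
theorem result (p q b : ℕ) (hp : p.Prime) (hq : q.Prime) (hpq : p < q) (hb : 1 ≤ b) :
    ∃ B : ℕ, IsGreatest {h : ℕ | ∃ f : ℤ[X], f ∣ X ^ (p * q ^ b) - 1 ∧ height f = h} B ∧ p ∣ B := by
  have hn : 0 < p * q ^ b := Nat.mul_pos hp.pos (pow_pos hq.pos _)
  set s2 := (p * q ^ b).divisors.filter (fun d => ¬ d ∣ p * q) with hs2
  let F : Finset ℕ → ℤ[X] := fun t => ∏ d ∈ t, cyclotomic (d / q) ℤ
  have hF : ∀ t ⊆ s2, ∏ d ∈ t, cyclotomic d ℤ = expand ℤ q (F t) := by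
    intro t ht
    rw [map_prod]
    refine prod_congr rfl fun d hd => ?_
    have := mem_filter.mp (ht hd)
    exact big hp hq b d (Nat.dvd_of_mem_divisors this.1) this.2
  obtain ⟨t0, ht0, hmax⟩ := exists_max_image s2.powerset (fun t => height (F t))
    ⟨∅, empty_mem_powerset _⟩
  have ht0' := mem_powerset.mp ht0
  have upper : ∀ f : ℤ[X], f ∣ X ^ (p * q ^ b) - 1 → height f ≤ p * height (F t0) := by
    intro f hf
    rw [← prod_cyclotomic_eq_X_pow_sub_one hn] at hf
    obtain ⟨t, ht, h⟩ := dvd_prod _ _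
      (fun i hi => cyclotomic.irreducible (Nat.pos_of_mem_divisors hi)) f hf
    have e : height f = height (∏ d ∈ t, cyclotomic d ℤ) := by
      rcases h with rfl | rfl
      · rfl
      · exact height_neg _
    have hsub : t.filter (fun d => ¬ d ∣ p * q) ⊆ s2 := filter_subset_filter _ ht
    rw [e, ← prod_filter_mul_prod_filter_not t (fun d => d ∣ p * q), hF _ hsub]
    apply height_le
    intro k
    exact small hp hq hpq _ (fun d hd => (mem_filter.mp hd).2) _ _
      (fun j => (le_height _ j).trans (hmax _ (mem_powerset.mpr hsub))) k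
  refine ⟨p * height (F t0), ⟨?_, ?_⟩, dvd_mul_right _ _⟩
  · have hdvd : cyclotomic p ℤ * cyclotomic q ℤ * expand ℤ q (F t0) ∣ X ^ (p * q ^ b) - 1 := by
      have hp' : p ∉ t0 := fun h => (mem_filter.mp (ht0' h)).2 (dvd_mul_right _ _)
      have hq' : q ∉ t0 := fun h => (mem_filter.mp (ht0' h)).2 (dvd_mul_left _ _)
      rw [← hF t0 ht0', mul_assoc, ← prod_insert (f := fun d => cyclotomic d ℤ) hq',
        ← prod_insert (f := fun d => cyclotomic d ℤ) (by simp [hp', hpq.ne]),
        ← prod_cyclotomic_eq_X_pow_sub_one hn]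
      apply prod_dvd_prod_of_subset
      refine insert_subset (Nat.mem_divisors.mpr ⟨dvd_mul_right _ _, hn.ne'⟩)
        (insert_subset (Nat.mem_divisors.mpr ⟨?_, hn.ne'⟩) (ht0'.trans (filter_subset _ _)))
      exact Dvd.dvd.mul_left (dvd_pow_self q (by omega)) p
    refine ⟨_, hdvd, le_antisymm (upper _ hdvd) ?_⟩
    rcases (F t0).support.eq_empty_or_nonempty with h | h
    · simp [height, h]
    · obtain ⟨k, -, hk⟩ := exists_mem_eq_sup _ h (fun i => ((F t0).coeff i).natAbs)
      have := le_height (cyclotomic p ℤ * cyclotomic q ℤ * expand ℤ q (F t0)) (q * k + (q - 1))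
      rw [lower hp hq hpq, Int.natAbs_mul, Int.natAbs_natCast] at this
      rw [show height (F t0) = ((F t0).coeff k).natAbs from hk]
      exact this
  · rintro _ ⟨f, hf, rfl⟩
    exact upper f hf

end Pool.Agent.Results.MP_b384de_nt.Div
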